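import Pool.Agent.H493R2.SM_T6G
import Pool.Agent.H777R2.SM_T6F
import Pool.Agent.H109R2.SM_T7

/-!
T6G of h306: the bound for the dual side, final form.
-/

namespace Pool.Agent.H493R2.SM

open Pool.Agent.H306R2.SM

/-- T6G -/
theorem D_bound (κ : ℝ) (hκ : 1 / 2 ≤ κ) (hκ1 : κ ≤ 1) (hK : KB κ) (ε : ℝ) (hε : 0 < ε) :
    ∃ C : ℝ, ∃ A : ℕ, 0 < C ∧ ∀ k : ℕ, 1 ≤ k → ∀ h l : ℕ, 1 ≤ l → l ≤ h → Nat.Coprime h l →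
      ∀ Y : ℝ, 1 ≤ Y → ‖SS k h l Y - MM k h l Y‖ ≤
        C * (k : ℝ) ^ A * (k.factorial : ℝ) * Y ^ k * (h : ℝ) ^ (1 + κ + ε) * hq h ^ (1 - κ) :=
  D_bound_of Pool.Agent.H777R2.SM.voronoi Pool.Agent.H109R2.R_bound κ hκ hκ1 hK ε hε

end Pool.Agent.H493R2.SM
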