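import Pool.Agent.H679R2.Mix.Csp
import Pool.Agent.H671R2.PolyAuto

/-!
# Numbering the variables of a constraint satisfaction problem
-/

namespace Pool.Agent.NPC.Mix.T3b

open Relation

section Generic

variable {X : Type} [DecidableEq X] (I : Csp X)

/-- the list of relevant variables (with repetitions) -/
def vars : List X := I.z :: I.wires.flatMap (fun w => [w.1.1, w.2.1])

/-- the numeric instance -/
def toNC : NC :=
  ((vars I).map I.two,
    I.wires.map (fun w => (((vars I).idxOf w.1.1, w.1.2), ((vars I).idxOf w.2.1, w.2.2))))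

theorem mem_vars1 {w : (X × ℕ) × (X × ℕ)} (hw : w ∈ I.wires) : w.1.1 ∈ vars I := by
  refine List.mem_cons_of_mem _ (List.mem_flatMap.2 ⟨w, hw, by simp⟩)

theorem mem_vars2 {w : (X × ℕ) × (X × ℕ)} (hw : w ∈ I.wires) : w.2.1 ∈ vars I := by
  refine List.mem_cons_of_mem _ (List.mem_flatMap.2 ⟨w, hw, by simp⟩)

theorem z_mem : I.z ∈ vars I := List.mem_cons_self

theorem idx_z : (vars I).idxOf I.z = 0 := by simp [vars]

theorem two_getD (v : X) (hv : v ∈ vars I) :
    ((toNC I).1.getD ((vars I).idxOf v) true) = I.two v := by
  have h := List.idxOf_lt_length_iff.2 hv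
  simp only [toNC]
  rw [List.getD_eq_getElem?_getD, List.getElem?_map, List.getElem?_eq_getElem h]
  simp

theorem two_getD' (i : ℕ) (hi : i < (vars I).length) :
    ((toNC I).1.getD i true) = I.two (vars I)[i] := by
  simp only [toNC]
  rw [List.getD_eq_getElem?_getD, List.getElem?_map, List.getElem?_eq_getElem hi]
  simp

theorem two_getD_none (i : ℕ) (hi : (vars I).length ≤ i) :
    ((toNC I).1.getD i true) = true := by
  simp only [toNC]
  rw [List.getD_eq_getElem?_getD, List.getElem?_map, List.getElem?_eq_none hi]
  simp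

theorem good_iff : (toNC I).csp.Good ↔ I.Good := by
  classical
  constructor
  · intro hG g hg
    -- numeric solution from `g`
    let F : ℕ → ℕ := fun i => if h : i < (vars I).length then g (vars I)[i] else 0
    have hFi : ∀ v ∈ vars I, F ((vars I).idxOf v) = g v := by
      intro v hv
      have h := List.idxOf_lt_length_iff.2 hv
      simp only [F, dif_pos h]
      simp
    have hF : (toNC I).csp.Sol F := by
      refine ⟨?_, ?_, ?_⟩
      · intro i
        simp only [F]
        split_ifs
        · exact hg.1 _
        · omega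
      · intro i hi
        simp only [F]
        split_ifs with h
        · apply hg.2.1
          have := two_getD' I i h
          rw [← this]; exact hi
        · omega
      · intro w hw
        obtain ⟨w', hw', rfl⟩ := List.mem_map.1 hw
        simp only
        rw [hFi _ (mem_vars1 I hw'), hFi _ (mem_vars2 I hw')]
        exact hg.2.2 w' hw'
    obtain ⟨F', hF', hz⟩ := hG F hF
    -- projection
    let pr : (ℕ → ℕ) → X → ℕ := fun H v => if v ∈ vars I then H ((vars I).idxOf v) else g v
    have hsol : ∀ H, (toNC I).csp.Sol H → I.Sol (pr H) := by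
      intro H hH
      refine ⟨?_, ?_, ?_⟩
      · intro v
        simp only [pr]
        split_ifs
        · exact hH.1 _
        · exact hg.1 _
      · intro v hv
        simp only [pr]
        split_ifs with h
        · apply hH.2.1
          change ((toNC I).1.getD ((vars I).idxOf v) true) = true
          rw [two_getD I v h]; exact hv
        · exact hg.2.1 _ hv
      · intro w hw
        simp only [pr, if_pos (mem_vars1 I hw), if_pos (mem_vars2 I hw)]
        exact hH.2.2 _ (List.mem_map.2 ⟨w, hw, rfl⟩)
    have hpr0 : pr F = g := by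
      funext v
      simp only [pr]
      split_ifs with h
      · exact hFi v h
      · rfl
    have hstep : ∀ H H', (toNC I).csp.Step H H' → I.Step (pr H) (pr H') := by
      intro H H' hs
      refine ⟨hsol _ hs.1, hsol _ hs.2.1, ?_⟩
      obtain ⟨i, hi⟩ := hs.2.2
      by_cases hil : i < (vars I).length
      · refine ⟨(vars I)[i], fun v hv => ?_⟩
        simp only [pr]
        split_ifs with h
        · apply hi
          intro he
          apply hv
          have h2 := List.idxOf_lt_length_iff.2 h
          have h3 := List.getElem_idxOf h2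
          simp only [he] at h3
          exact h3.symm
        · rfl
      · refine ⟨I.z, fun v hv => ?_⟩
        simp only [pr]
        split_ifs with h
        · apply hi
          intro he
          have h2 := List.idxOf_lt_length_iff.2 h
          omega
        · rfl
    refine ⟨pr F', ?_, ?_⟩
    · rw [← hpr0]
      exact ReflTransGen.lift pr hstep _ _ hF'
    · simp only [pr, if_pos (z_mem I), idx_z]
      exact hz
  · intro hG F hF
    let g : X → ℕ := fun v => F ((vars I).idxOf v)
    have hg : I.Sol g := by
      refine ⟨fun v => hF.1 _, ?_, ?_⟩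
      · intro v hv
        apply hF.2.1
        change ((toNC I).1.getD ((vars I).idxOf v) true) = true
        by_cases h : v ∈ vars I
        · rw [two_getD I v h]; exact hv
        · apply two_getD_none
          rw [List.idxOf_eq_length h]
      · intro w hw
        exact hF.2.2 _ (List.mem_map.2 ⟨w, hw, rfl⟩)
    obtain ⟨g', hg', hz⟩ := hG g hg
    let li : (X → ℕ) → ℕ → ℕ := fun k i =>
      if h : ∃ h : i < (vars I).length, (vars I).idxOf ((vars I)[i]'h) = i then k ((vars I)[i]'h.1)
      else F i
    have hli : ∀ k v, v ∈ vars I → li k ((vars I).idxOf v) = k v := by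
      intro k v hv
      have h := List.idxOf_lt_length_iff.2 hv
      have h2 : (vars I)[(vars I).idxOf v] = v := List.getElem_idxOf h
      simp only [li]
      rw [dif_pos ⟨h, by rw [h2]⟩, h2]
    have hsol : ∀ k, I.Sol k → (toNC I).csp.Sol (li k) := by
      intro k hk
      refine ⟨?_, ?_, ?_⟩
      · intro i
        simp only [li]
        split_ifs
        · exact hk.1 _
        · exact hF.1 _
      · intro i hi
        simp only [li]
        split_ifs with h
        · apply hk.2.1
          rw [← two_getD' I i h.1]
          exact hi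
        · exact hF.2.1 i hi
      · intro w hw
        obtain ⟨w', hw', rfl⟩ := List.mem_map.1 hw
        simp only
        rw [hli _ _ (mem_vars1 I hw'), hli _ _ (mem_vars2 I hw')]
        exact hk.2.2 w' hw'
    have h0 : li g = F := by
      funext i
      simp only [li, g]
      split_ifs with h
      · rw [h.2]
      · rfl
    have hstep : ∀ k k', I.Step k k' → (toNC I).csp.Step (li k) (li k') := by
      intro k k' hs
      refine ⟨hsol _ hs.1, hsol _ hs.2.1, ?_⟩
      obtain ⟨v, hv⟩ := hs.2.2
      refine ⟨(vars I).idxOf v, fun i hi => ?_⟩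
      simp only [li]
      split_ifs with h
      · apply hv
        intro he
        apply hi
        rw [← he]
        exact h.2.symm
      · rfl
    refine ⟨li g', ?_, ?_⟩
    · rw [← h0]
      exact ReflTransGen.lift li hstep _ _ hg'
    · have := hli g' I.z (z_mem I)
      rw [idx_z] at this
      change li g' 0 = 1
      rw [this]; exact hz

theorem ok_of (h0 : I.two I.z = true)
    (h : ∀ w ∈ I.wires, w.1.1 ≠ w.2.1 ∧ w.1.2 ≤ 2 ∧ w.2.2 ≤ 2) : (toNC I).Ok := by
  refine ⟨?_, ?_⟩
  · simp [toNC, vars, h0]
  · intro w hw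
    obtain ⟨w', hw', rfl⟩ := List.mem_map.1 hw
    have h1 := mem_vars1 I hw'
    have h2 := mem_vars2 I hw'
    obtain ⟨h3, h4, h5⟩ := h w' hw'
    refine ⟨?_, ?_, ?_, h4, h5⟩
    · simpa [toNC] using List.idxOf_lt_length_iff.2 h1
    · simpa [toNC] using List.idxOf_lt_length_iff.2 h2
    · intro he
      apply h3
      exact (List.idxOf_inj h1).1 he

end Generic

/-! ### the instance -/

theorem wires_ok {V : Type} (φ : List (List (Bool × V))) (X : ℕ → V) (n : ℕ) :
    ∀ w ∈ (cspOf φ X n).wires, w.1.1 ≠ w.2.1 ∧ w.1.2 ≤ 2 ∧ w.2.2 ≤ 2 := by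
  intro w hw
  simp only [cspOf, List.mem_append] at hw
  rcases hw with hw | hw | hw | hw
  · fin_cases hw <;> simp [vhP, vhQ, vβ, vz]
  · simp only [holdWires, List.mem_flatMap] at hw
    obtain ⟨i, hi, hw⟩ := hw
    fin_cases hw <;> simp [vP, vhP]
  · simp only [holdWires, List.mem_flatMap] at hw
    obtain ⟨i, hi, hw⟩ := hw
    fin_cases hw <;> simp [vQ, vhQ]
  · simp only [List.mem_flatMap] at hw
    obtain ⟨c, hc, hw⟩ := hw
    simp only [clauseWires, List.mem_flatMap] at hw
    obtain ⟨p, hp, hw⟩ := hw
    simp only [List.mem_cons, List.not_mem_nil, or_false] at hw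
    rcases hw with rfl | rfl
    · refine ⟨by simp [vc], by simp, ?_⟩
      simp only
      split_ifs <;> omega
    · simp only
      split_ifs
      · simp [vc]
      · simp [vc, vβ]

/-- first position, computably -/
def pos? {W : Type} [DecidableEq W] (l : List W) (v : W) : ℕ :=
  (((l.zipIdx).filter (fun p => decide (p.1 = v))).head?).elim l.length (fun p => p.2)

theorem pos?_eq {W : Type} [DecidableEq W] (l : List W) (v : W) : pos? l v = l.idxOf v := by
  have key : ∀ (l : List W) (k : ℕ),
      (((l.zipIdx k).filter (fun p => decide (p.1 = v))).head?).elim (k + l.length) (fun p => p.2) =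
        k + l.idxOf v := by
    intro l
    induction l with
    | nil => intro k; simp
    | cons a l ih =>
      intro k
      by_cases h : a = v
      · simp [List.zipIdx_cons, h]
      · have := ih (k + 1)
        rw [List.zipIdx_cons, List.filter_cons_of_neg (by simpa using h), List.length_cons,
          List.idxOf_cons_ne _ h]
        rw [show k + (l.length + 1) = k + 1 + l.length by ring, this]
        omega
  have := key l 0
  simpa [pos?] using this

theorem poly_twoX {V : Type} [TEnc V] : Poly (fun v : XL V => twoX v) := by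
  have h : (fun v : XL V => twoX v) = fun v => Sum.elim (fun _ => true)
      (fun p : ℕ × ℕ × ℕ => decide ((p.1 = 0 ∧ ¬ p.2.1 = 3) ∨ (p.1 = 3 ∧ p.2.2 = 0))) v := by
    funext v
    rcases v with v | ⟨a, b, c⟩ <;> rfl
  rw [h]
  fun_prop

theorem poly_idxOf {α W : Type} [TEnc α] [TEnc W] [DecidableEq W] {l : α → List W} {v : α → W}
    (hl : Poly l) (hv : Poly v) : Poly (fun a => (l a).idxOf (v a)) := by
  have h : (fun a => (l a).idxOf (v a)) = fun a =>
      ((((l a).zipIdx).filter (fun p => decide (p.1 = v a))).head?).elim (l a).length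
        (fun p => p.2) := by
    funext a
    rw [← pos?_eq]
    rfl
  rw [h]
  fun_prop

theorem poly_wires {V : Type} [TEnc V] {X : ℕ → V} (hX' : Poly X)
    {n : List Bool → ℕ} (hn : UPoly n) {φ : List Bool → List (List (Bool × V))} (hφ : Poly φ) :
    Poly (fun x => (cspOf (φ x) X (n x)).wires) := by
  have hr : Poly (fun x => List.range (n x)) := hn.range
  have hn' : Poly n := hn.toPoly
  have h1 : Poly (fun x => holdWires X vP vhP 0 (n x)) := by
    simp only [holdWires, vP, vhP]
    fun_prop
  have h2 : Poly (fun x => holdWires X vQ vhQ (n x) (n x)) := by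
    simp only [holdWires, vQ, vhQ]
    fun_prop
  have h3 : Poly (fun p : ℕ × List (Bool × V) => clauseWires p.1 p.2) := by
    have h4 : ∀ (i : ℕ) (c : List (Bool × V)), clauseWires i c = c.zipIdx.flatMap (fun p =>
      [((vc i p.2, 0), (Sum.inl p.1.2, bif p.1.1 then 0 else 1)),
      ((vc i p.2, 1), bif decide (p.2 + 1 < c.length) then (vc i (p.2 + 1), 2)
        else (vβ, 0))]) := by
      intro i c
      simp only [clauseWires]
      congr 1
      funext p
      by_cases h : p.2 + 1 < c.length <;> cases p.1.1 <;> simp [h]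
    simp only [h4, vc, vβ]
    fun_prop
  have h5 : Poly (fun x => (φ x).zipIdx.flatMap (fun p => clauseWires p.2 p.1)) := by
    fun_prop
  simp only [cspOf]
  fun_prop

theorem poly_num {α V : Type} [TEnc α] [TEnc V] [DecidableEq (XL V)] {L : α → List (XL V)}
    {W : α → List ((XL V × ℕ) × (XL V × ℕ))} (hL : Poly L) (hW : Poly W) :
    Poly (fun a => (((L a).map twoX,
      (W a).map (fun w => (((L a).idxOf w.1.1, w.1.2), ((L a).idxOf w.2.1, w.2.2)))) : NC)) := by
  have h3 : Poly (fun a => (L a).map (fun v => twoX v)) :=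
    Poly.map hL (poly_twoX.comp (Poly.snd Poly.id))
  have hL' : Poly (fun p : α × ((XL V × ℕ) × (XL V × ℕ)) => L p.1) := by fun_prop
  have h4 : Poly (fun p : α × ((XL V × ℕ) × (XL V × ℕ)) => (L p.1).idxOf p.2.1.1) :=
    poly_idxOf hL' (by fun_prop)
  have h5 : Poly (fun p : α × ((XL V × ℕ) × (XL V × ℕ)) => (L p.1).idxOf p.2.2.1) :=
    poly_idxOf hL' (by fun_prop)
  have h6 : Poly (fun p : α × ((XL V × ℕ) × (XL V × ℕ)) =>
      (((L p.1).idxOf p.2.1.1, p.2.1.2), ((L p.1).idxOf p.2.2.1, p.2.2.2))) :=
    Poly.pair (Poly.pair h4 (by fun_prop)) (Poly.pair h5 (by fun_prop))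
  exact Poly.pair h3 (Poly.map (F := fun a w =>
    (((L a).idxOf w.1.1, w.1.2), ((L a).idxOf w.2.1, w.2.2))) hW h6)

theorem poly_vars {α V : Type} [TEnc α] [TEnc V]
    {W : α → List ((XL V × ℕ) × (XL V × ℕ))} (hW : Poly W) :
    Poly (fun a => ((vz : XL V) :: (W a).flatMap (fun w => [w.1.1, w.2.1]))) := by
  simp only [vz]
  fun_prop

open Classical in
/-- T3b -/
theorem exists_nc {V : Type} [TEnc V] {X : ℕ → V} (hX : Function.Injective X) (hX' : Poly X)
    {n : List Bool → ℕ} (hn : UPoly n) {φ : List Bool → List (List (Bool × V))} (hφ : Poly φ) :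
    ∃ nc : List Bool → NC, Poly nc ∧ (∀ x, (nc x).Ok) ∧
      ∀ x, (nc x).csp.Good ↔ (cspOf (φ x) X (n x)).Good := by
  refine ⟨fun x => toNC (cspOf (φ x) X (n x)), ?_, fun x => ?_, fun x => good_iff _⟩
  · have hw := poly_wires hX' hn hφ
    exact poly_num (poly_vars hw) hw
  · exact ok_of _ (by simp [cspOf, twoX, vz]) (wires_ok _ _ _)

end Pool.Agent.NPC.Mix.T3b
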