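import Pool.Agent.H306R2.SM.Defs
import Pool.Agent.H510R2.Div

set_option autoImplicit false

/-!
Task T6G of the sixth moment project: `SS - MM` is small, from the Voronoi bound and the bound of
the Kloosterman type sums.
-/

namespace Pool.Agent.H493R2.SM

open Finset Filter Topology MeasureTheory Complex
open Pool.Agent.H306R2 Pool.Agent.H306R2.SM

noncomputable section

/-- the test function -/
def Ph (h l : ℕ) [NeZero h] (x y z : ZMod h) : ℂ :=
  ZMod.stdAddChar (-((l : ZMod h) * x * y * z)) -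
    (∑ u ∈ (range h).filter (fun u => Nat.Coprime u h),
      (ZMod.stdAddChar ((u : ZMod h) * x * y * z) : ℂ)) / (h.totient : ℂ)

theorem card_units (h : ℕ) :
    ((range h).filter (fun u => Nat.Coprime u h)).card = h.totient := by
  rw [Nat.totient_eq_card_coprime]
  congr 1
  ext u
  simp only [mem_filter, Nat.coprime_comm]

theorem totient_ne (h : ℕ) [NeZero h] : (h.totient : ℂ) ≠ 0 := by
  have : 0 < h.totient := Nat.totient_pos.mpr (Nat.pos_of_ne_zero (NeZero.ne h))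
  exact_mod_cast this.ne'

/-- averages over the units -/
theorem avg_const (h : ℕ) [NeZero h] (c : ℂ) :
    (∑ _u ∈ (range h).filter (fun u => Nat.Coprime u h), c) / (h.totient : ℂ) = c := by
  rw [sum_const, card_units, nsmul_eq_mul, mul_comm, mul_div_assoc, div_self (totient_ne h),
    mul_one]

theorem sum_char (h : ℕ) [NeZero h] (b : ZMod h) :
    ∑ x : ZMod h, (ZMod.stdAddChar (x * b) : ℂ) = if b = 0 then (h : ℂ) else 0 := by
  classical
  have h1 := AddChar.sum_mulShift (R' := ℂ) b (ZMod.isPrimitive_stdAddChar h)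
  rw [h1, ZMod.card]
  split_ifs <;> simp

theorem unit_of_coprime {h u : ℕ} (hu : Nat.Coprime u h) : IsUnit ((u : ℕ) : ZMod h) :=
  (ZMod.isUnit_iff_coprime u h).mpr hu

theorem sum_char_unit (h : ℕ) [NeZero h] {w : ZMod h} (hw : IsUnit w) (b : ZMod h) :
    ∑ x : ZMod h, (ZMod.stdAddChar (x * (w * b)) : ℂ) = if b = 0 then (h : ℂ) else 0 := by
  rw [sum_char]
  simp only [hw.mul_right_eq_zero]

theorem Ph_ZS (h l : ℕ) [NeZero h] (hl : Nat.Coprime l h) : ZS h (Ph h l) := by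
  have hlu : IsUnit (-((l : ℕ) : ZMod h)) := (unit_of_coprime hl).neg
  have key : ∀ (g : ZMod h → ZMod h → ZMod h) (c : ZMod h)
      (_ : ∀ w x, g w x = x * (w * c)),
      ∑ x : ZMod h, ((ZMod.stdAddChar (g (-(l : ZMod h)) x) : ℂ) -
        (∑ u ∈ (range h).filter (fun u => Nat.Coprime u h),
          (ZMod.stdAddChar (g (u : ZMod h) x) : ℂ)) / (h.totient : ℂ)) = 0 := by
    intro g c hg
    simp only [hg]
    rw [sum_sub_distrib, sum_char_unit h hlu, ← sum_div, sum_comm]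
    rw [sum_congr rfl (fun u hu => sum_char_unit h
      (unit_of_coprime (mem_filter.mp hu).2) c), avg_const, sub_self]
  refine ⟨fun y z => ?_, fun x z => ?_, fun x y => ?_⟩
  · have := key (fun w x => w * x * y * z) (y * z) (fun w x => by ring)
    simpa only [Ph, neg_mul] using this
  · have := key (fun w y => w * x * y * z) (x * z) (fun w y => by ring)
    simpa only [Ph, neg_mul] using this
  · have := key (fun w z => w * x * y * z) (x * y) (fun w z => by ring)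
    simpa only [Ph, neg_mul] using this

/-- the Fourier transform of one character -/
theorem four_one (h : ℕ) [NeZero h] {w : ZMod h} (hw : IsUnit w) (m1 m2 m3 : ZMod h) :
    ∃ b : ZMod h, ∑ x : ZMod h, ∑ y : ZMod h, ∑ z : ZMod h,
      (ZMod.stdAddChar (w * x * y * z) : ℂ) * ZMod.stdAddChar (m1 * x + m2 * y + m3 * z) =
        (h : ℂ) * Rs h b m1 m2 := by
  classical
  obtain ⟨v, rfl⟩ := hw
  refine ⟨-((v⁻¹ : (ZMod h)ˣ) : ZMod h) * m3, ?_⟩
  unfold Rs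
  rw [mul_sum]
  refine sum_congr rfl fun x _ => ?_
  rw [mul_sum]
  refine sum_congr rfl fun y _ => ?_
  have h1 : ∀ z : ZMod h, (ZMod.stdAddChar ((v : ZMod h) * x * y * z) : ℂ) *
      ZMod.stdAddChar (m1 * x + m2 * y + m3 * z) =
      ZMod.stdAddChar (m1 * x + m2 * y) * ZMod.stdAddChar (z * ((v : ZMod h) * x * y + m3)) := by
    intro z
    rw [← AddChar.map_add_eq_mul, ← AddChar.map_add_eq_mul]
    congr 1
    ring
  simp only [h1]
  rw [← mul_sum, sum_char]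
  have h2 : (v : ZMod h) * x * y + m3 = 0 ↔ x * y = -((v⁻¹ : (ZMod h)ˣ) : ZMod h) * m3 := by
    constructor
    · intro h3
      have h4 : (v : ZMod h) * (x * y) = -m3 := by
        rw [← mul_assoc]; exact eq_neg_of_add_eq_zero_left h3
      calc x * y = ((v⁻¹ : (ZMod h)ˣ) : ZMod h) * ((v : ZMod h) * (x * y)) := by
            rw [← mul_assoc, Units.inv_mul, one_mul]
        _ = _ := by rw [h4]; ring
    · intro h3
      have h4 : (v : ZMod h) * (x * y) = -m3 := by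
        rw [h3, ← mul_assoc, mul_neg, Units.mul_inv, neg_mul, one_mul]
      rw [mul_assoc, h4]; ring
  by_cases h3 : x * y = -((v⁻¹ : (ZMod h)ˣ) : ZMod h) * m3
  · rw [if_pos h3, if_pos (h2.mpr h3), mul_comm]
  · rw [if_neg h3, if_neg (fun h4 => h3 (h2.mp h4)), mul_zero, mul_zero]

theorem comm4 {α β : Type*} [Fintype α] (s : Finset β) (f : β → α → α → α → ℂ) :
    ∑ x : α, ∑ y : α, ∑ z : α, ∑ u ∈ s, f u x y z =
      ∑ u ∈ s, ∑ x : α, ∑ y : α, ∑ z : α, f u x y z := by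
  have h1 : ∀ x y : α, ∑ z : α, ∑ u ∈ s, f u x y z = ∑ u ∈ s, ∑ z : α, f u x y z :=
    fun x y => sum_comm
  have h2 : ∀ x : α, ∑ y : α, ∑ z : α, ∑ u ∈ s, f u x y z =
      ∑ u ∈ s, ∑ y : α, ∑ z : α, f u x y z := by
    intro x
    simp only [h1]
    exact sum_comm
  simp only [h2]
  exact sum_comm

theorem Ph_FB (h l : ℕ) [NeZero h] (hl : Nat.Coprime l h) {R : ℝ}
    (hR : ∀ b m1 m2 : ZMod h, ‖Rs h b m1 m2‖ ≤
      R * Real.sqrt (Nat.gcd m1.val h) * Real.sqrt (Nat.gcd m2.val h)) :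
    FB h (Ph h l) (2 * h * R) := by
  intro m1 m2 m3
  have hlu : IsUnit (-((l : ℕ) : ZMod h)) := (unit_of_coprime hl).neg
  set G : ℝ := Real.sqrt (Nat.gcd m1.val h) * Real.sqrt (Nat.gcd m2.val h) with hG
  have hone : ∀ w : ZMod h, IsUnit w → ‖∑ x : ZMod h, ∑ y : ZMod h, ∑ z : ZMod h,
      (ZMod.stdAddChar (w * x * y * z) : ℂ) * ZMod.stdAddChar (m1 * x + m2 * y + m3 * z)‖ ≤
        h * (R * G) := by
    intro w hw
    obtain ⟨b, hb⟩ := four_one h hw m1 m2 m3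
    rw [hb, norm_mul, Complex.norm_natCast]
    refine mul_le_mul_of_nonneg_left ?_ (Nat.cast_nonneg _)
    rw [hG, ← mul_assoc]
    exact hR b m1 m2
  have hsplit : ∑ x : ZMod h, ∑ y : ZMod h, ∑ z : ZMod h, Ph h l x y z *
      (ZMod.stdAddChar (m1 * x + m2 * y + m3 * z) : ℂ) =
      (∑ x : ZMod h, ∑ y : ZMod h, ∑ z : ZMod h,
        (ZMod.stdAddChar (-(l : ZMod h) * x * y * z) : ℂ) *
          ZMod.stdAddChar (m1 * x + m2 * y + m3 * z)) -
      (∑ u ∈ (range h).filter (fun u => Nat.Coprime u h),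
        ∑ x : ZMod h, ∑ y : ZMod h, ∑ z : ZMod h,
        (ZMod.stdAddChar ((u : ZMod h) * x * y * z) : ℂ) *
          ZMod.stdAddChar (m1 * x + m2 * y + m3 * z)) / (h.totient : ℂ) := by
    have e1 : ∀ x y z : ZMod h, Ph h l x y z *
        (ZMod.stdAddChar (m1 * x + m2 * y + m3 * z) : ℂ) =
        (ZMod.stdAddChar (-(l : ZMod h) * x * y * z) : ℂ) *
          ZMod.stdAddChar (m1 * x + m2 * y + m3 * z) -
        (∑ u ∈ (range h).filter (fun u => Nat.Coprime u h),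
          (ZMod.stdAddChar ((u : ZMod h) * x * y * z) : ℂ) *
          ZMod.stdAddChar (m1 * x + m2 * y + m3 * z)) / (h.totient : ℂ) := by
      intro x y z
      rw [Ph, sub_mul, ← sum_mul]
      simp only [neg_mul]
      ring
    simp only [e1, sum_sub_distrib, ← sum_div]
    congr 2
    exact comm4 _ _
  rw [hsplit]
  refine (norm_sub_le _ _).trans ?_
  have h1 := hone _ hlu
  have h2 : ‖(∑ u ∈ (range h).filter (fun u => Nat.Coprime u h),
        ∑ x : ZMod h, ∑ y : ZMod h, ∑ z : ZMod h,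
        (ZMod.stdAddChar ((u : ZMod h) * x * y * z) : ℂ) *
          ZMod.stdAddChar (m1 * x + m2 * y + m3 * z)) / (h.totient : ℂ)‖ ≤ h * (R * G) := by
    rw [norm_div, Complex.norm_natCast]
    have h3 : (0 : ℝ) < h.totient := by
      exact_mod_cast Nat.totient_pos.mpr (Nat.pos_of_ne_zero (NeZero.ne h))
    rw [div_le_iff₀ h3]
    refine (norm_sum_le _ _).trans ?_
    refine (sum_le_sum fun u hu => hone _ (unit_of_coprime (mem_filter.mp hu).2)).trans ?_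
    rw [sum_const, card_units, nsmul_eq_mul, mul_comm]
  have h3 : 2 * (h : ℝ) * R * Real.sqrt (Nat.gcd m1.val h) * Real.sqrt (Nat.gcd m2.val h) =
      h * (R * G) + h * (R * G) := by rw [hG]; ring
  rw [h3]
  exact add_le_add h1 h2

/-! ### the coefficients -/

theorem d3_eq (n : ℕ) :
    (d3 n : ℝ) = ∑ x ∈ n.divisorsAntidiagonal, ∑ _y ∈ x.2.divisorsAntidiagonal, (1 : ℝ) := by
  have h1 : d3 n = (dA ((3 : ℕ) : ℝ)) n := by
    rw [dA_apply]; norm_num [d3]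
  rw [h1, dA_nat, pow_succ', ArithmeticFunction.mul_apply]
  refine sum_congr rfl fun x hx => ?_
  have hx0 := Nat.mem_divisorsAntidiagonal.mp hx
  have hx1 : x.1 ≠ 0 := fun h => hx0.2 (by rw [← hx0.1, h, zero_mul])
  have e1 : zR x.1 = 1 := by
    unfold zR
    rw [ArithmeticFunction.natCoe_apply, ArithmeticFunction.zeta_apply_ne hx1, Nat.cast_one]
  rw [e1, one_mul, pow_two, ArithmeticFunction.mul_apply]
  refine sum_congr rfl fun y hy => ?_
  have hy0 := Nat.mem_divisorsAntidiagonal.mp hy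
  have hy1 : y.1 ≠ 0 := fun h => hy0.2 (by rw [← hy0.1, h, zero_mul])
  have hy2 : y.2 ≠ 0 := fun h => hy0.2 (by rw [← hy0.1, h, mul_zero])
  have e2 : ∀ m : ℕ, m ≠ 0 → zR m = 1 := by
    intro m hm
    unfold zR
    rw [ArithmeticFunction.natCoe_apply, ArithmeticFunction.zeta_apply_ne hm, Nat.cast_one]
  rw [e2 _ hy1, e2 _ hy2, one_mul]

theorem d3_nonneg (n : ℕ) : 0 ≤ d3 n := dv_nonneg (by norm_num) n

theorem d3_le (n : ℕ) : d3 n ≤ (n : ℝ) ^ 3 := by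
  have h1 := PB_dA (α := 3) (by norm_num) (J := 3) (by norm_num) n
  rw [dA_apply] at h1
  exact (le_abs_self _).trans h1

theorem std_ee (h : ℕ) [NeZero h] (j : ℤ) : (ZMod.stdAddChar ((j : ℤ) : ZMod h) : ℂ) = ee h j := by
  rw [ZMod.stdAddChar_coe, ee]
  congr 1
  ring

theorem FF_Ph (h l : ℕ) [NeZero h] (n : ℕ) :
    FF h (Ph h l) n = (d3 n : ℂ) * (ee h (-((n : ℤ) * l)) - rc h n) := by
  have h1 : ∀ x ∈ n.divisorsAntidiagonal, ∀ y ∈ x.2.divisorsAntidiagonal,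
      Ph h l (x.1 : ZMod h) (y.1 : ZMod h) (y.2 : ZMod h) =
        ee h (-((n : ℤ) * l)) - rc h n := by
    intro x hx y hy
    have hx0 := (Nat.mem_divisorsAntidiagonal.mp hx).1
    have hy0 := (Nat.mem_divisorsAntidiagonal.mp hy).1
    have h2 : ((x.1 : ℕ) : ZMod h) * (y.1 : ℕ) * (y.2 : ℕ) = ((n : ℕ) : ZMod h) := by
      rw [mul_assoc, ← Nat.cast_mul, hy0, ← Nat.cast_mul, hx0]
    unfold Ph rc
    congr 1
    · rw [← std_ee]
      congr 1
      have : (l : ZMod h) * (x.1 : ZMod h) * (y.1 : ZMod h) * (y.2 : ZMod h) =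
          (l : ZMod h) * ((x.1 : ZMod h) * (y.1 : ZMod h) * (y.2 : ZMod h)) := by ring
      rw [this, h2]
      push_cast
      ring
    · congr 1
      refine sum_congr rfl fun u _ => ?_
      rw [← std_ee]
      congr 1
      have : (u : ZMod h) * (x.1 : ZMod h) * (y.1 : ZMod h) * (y.2 : ZMod h) =
          (u : ZMod h) * ((x.1 : ZMod h) * (y.1 : ZMod h) * (y.2 : ZMod h)) := by ring
      rw [this, h2]
      push_cast
      ring
  unfold FF
  rw [sum_congr rfl fun x hx => sum_congr rfl (h1 x hx)]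
  rw [d3_eq]
  push_cast
  rw [sum_mul]
  refine sum_congr rfl fun x _ => ?_
  rw [sum_mul]
  simp

theorem norm_ee_le (h : ℕ) (a : ℤ) : ‖ee h a‖ ≤ 1 := by
  unfold ee
  have : 2 * (Real.pi : ℂ) * I * ((a : ℂ) / (h : ℂ)) =
      ((2 * Real.pi * ((a : ℝ) / (h : ℝ)) : ℝ) : ℂ) * I := by
    push_cast; ring
  rw [this, Complex.norm_exp_ofReal_mul_I]

theorem norm_rc_le (h n : ℕ) (hh : 1 ≤ h) : ‖rc h n‖ ≤ 1 := by
  unfold rc
  rw [norm_div, Complex.norm_natCast]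
  have h3 : (0 : ℝ) < h.totient := by exact_mod_cast Nat.totient_pos.mpr (by omega)
  rw [div_le_one h3]
  refine (norm_sum_le _ _).trans ?_
  refine (sum_le_sum fun u _ => norm_ee_le h _).trans ?_
  rw [sum_const, card_units]
  simp

/-- summability of the weights -/
theorem summable_w (k : ℕ) {a V : ℝ} (hV : 0 < V) :
    Summable fun n : ℕ => d3 n * ((n : ℝ) * a) ^ k * Real.exp (-((n : ℝ) / V)) := by
  have h1 := (Real.summable_pow_mul_exp_neg_nat_mul (k + 3) (inv_pos.mpr hV)).mul_left (|a| ^ k)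
  refine Summable.of_norm_bounded h1 fun n => ?_
  rw [Real.norm_eq_abs, abs_mul, abs_mul, abs_of_nonneg (d3_nonneg n), Real.abs_exp, abs_pow,
    abs_mul, Nat.abs_cast, mul_pow]
  have h2 : -((n : ℝ) / V) = -V⁻¹ * n := by field_simp
  rw [h2, pow_add]
  have h3 := d3_le n
  have h4 : 0 ≤ (n : ℝ) ^ k * |a| ^ k * Real.exp (-V⁻¹ * n) := by positivity
  calc d3 n * ((n : ℝ) ^ k * |a| ^ k) * Real.exp (-V⁻¹ * n)
      = d3 n * ((n : ℝ) ^ k * |a| ^ k * Real.exp (-V⁻¹ * n)) := by ring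
    _ ≤ (n : ℝ) ^ 3 * ((n : ℝ) ^ k * |a| ^ k * Real.exp (-V⁻¹ * n)) :=
        mul_le_mul_of_nonneg_right h3 h4
    _ = _ := by ring

theorem SS_sub_MM (k h l : ℕ) [NeZero h] (hl : 1 ≤ l) {Y : ℝ} (hY : 0 < Y) :
    SS k h l Y - MM k h l Y = (((l : ℝ) / h) ^ k : ℝ) *
      ∑' n : ℕ, FF h (Ph h l) n * (((n : ℝ) ^ k * Real.exp (-((n : ℝ) / (h * Y / l))) : ℝ) : ℂ) := by
  have hh : 1 ≤ h := Nat.pos_of_ne_zero (NeZero.ne h)
  have hh0 : (0 : ℝ) < h := by exact_mod_cast hh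
  have hl0 : (0 : ℝ) < l := by exact_mod_cast hl
  have hV : 0 < (h : ℝ) * Y / l := by positivity
  have hexp : ∀ n : ℕ, (n : ℝ) * l / h / Y = (n : ℝ) / (h * Y / l) := by
    intro n; field_simp
  have hw : Summable fun n : ℕ =>
      ((d3 n * ((n : ℝ) * l / h) ^ k * Real.exp (-((n : ℝ) * l / h / Y)) : ℝ)) := by
    refine (summable_w k (a := l / h) hV).congr fun n => ?_
    rw [hexp, ← mul_div_assoc (n : ℝ) (l : ℝ) (h : ℝ)]
  have hs : ∀ c : ℕ → ℂ, (∀ n, ‖c n‖ ≤ 1) → Summable fun n : ℕ =>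
      ((d3 n * ((n : ℝ) * l / h) ^ k * Real.exp (-((n : ℝ) * l / h / Y)) : ℝ) : ℂ) * c n := by
    intro c hc
    refine Summable.of_norm_bounded hw.norm fun n => ?_
    rw [norm_mul, Complex.norm_real]
    exact mul_le_of_le_one_right (norm_nonneg _) (hc n)
  unfold SS MM
  rw [← Summable.tsum_sub (hs _ fun n => norm_ee_le h _) (hs _ fun n => norm_rc_le h n hh),
    ← tsum_mul_left]
  refine tsum_congr fun n => ?_
  rw [FF_Ph, hexp, ← mul_sub]
  push_cast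
  rw [div_pow, div_pow, mul_pow]
  ring

/-- the statement of T6F -/
def VoronoiStmt : Prop := ∀ (η : ℝ) (_hη : 0 < η) (_hη1 : η ≤ 1 / 2),
    ∃ C : ℝ, ∃ A : ℕ, 0 < C ∧
    ∀ (h : ℕ) [NeZero h] (Φ : ZMod h → ZMod h → ZMod h → ℂ) (B : ℝ), ZS h Φ → FB h Φ B →
      ∀ k : ℕ, 1 ≤ k → ∀ V : ℝ, 0 < V →
        ‖∑' n : ℕ, FF h Φ n * (((n : ℝ) ^ k * Real.exp (-((n : ℝ) / V)) : ℝ) : ℂ)‖ ≤
          C * (k : ℝ) ^ A * (k.factorial : ℝ) * V ^ ((k : ℝ) - η) * (h : ℝ) ^ (3 * η) *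
            (h.divisors.card : ℝ) ^ 2 * B

/-- the statement of T7 -/
def RBoundStmt : Prop := ∀ (κ : ℝ) (_hκ : 1 / 2 ≤ κ) (_hκ1 : κ ≤ 1) (_hK : KB κ) (ε : ℝ)
    (_hε : 0 < ε), ∃ C : ℝ, 0 < C ∧ ∀ (h : ℕ) [NeZero h] (b m1 m2 : ZMod h),
      ‖Rs h b m1 m2‖ ≤ C * (h : ℝ) ^ (κ + ε) * hq h ^ (1 - κ) *
        Real.sqrt (Nat.gcd m1.val h) * Real.sqrt (Nat.gcd m2.val h)

/-- T6G (from T6F and T7) -/
theorem D_bound_of (voronoi : VoronoiStmt) (R_bound : RBoundStmt) (κ : ℝ) (hκ : 1 / 2 ≤ κ) (hκ1 : κ ≤ 1) (hK : KB κ) (ε : ℝ) (hε : 0 < ε) :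
    ∃ C : ℝ, ∃ A : ℕ, 0 < C ∧ ∀ k : ℕ, 1 ≤ k → ∀ h l : ℕ, 1 ≤ l → l ≤ h → Nat.Coprime h l →
      ∀ Y : ℝ, 1 ≤ Y → ‖SS k h l Y - MM k h l Y‖ ≤
        C * (k : ℝ) ^ A * (k.factorial : ℝ) * Y ^ k * (h : ℝ) ^ (1 + κ + ε) * hq h ^ (1 - κ) := by
  set η : ℝ := min (1 / 2) (ε / 12) with hη
  have hη0 : 0 < η := lt_min (by norm_num) (by positivity)
  have hη1 : η ≤ 1 / 2 := min_le_left _ _
  have hη2 : 3 * η ≤ ε / 4 := by
    have := min_le_right (1 / 2 : ℝ) (ε / 12)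
    rw [← hη] at this
    linarith
  obtain ⟨C₁, A, hC₁, hvor⟩ := voronoi η hη0 hη1
  obtain ⟨C₂, hC₂, hR⟩ := R_bound κ hκ hκ1 hK (ε / 4) (by positivity)
  obtain ⟨C₃, hC₃, hdiv⟩ := Pool.Agent.H510R2.divisor_bound (ε / 8) (by positivity)
  refine ⟨C₁ * (2 * C₂) * C₃ ^ 2, A, by positivity, fun k hk h l hl hlh hcop Y hY => ?_⟩
  have hh : 1 ≤ h := hl.trans hlh
  have : NeZero h := ⟨by omega⟩
  have hh1 : (1 : ℝ) ≤ h := by exact_mod_cast hh
  have hh0 : (0 : ℝ) < h := by linarith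
  have hl0 : (0 : ℝ) < l := by exact_mod_cast hl
  have hlh' : (l : ℝ) ≤ h := by exact_mod_cast hlh
  have hq0 : 0 ≤ hq h := by
    unfold hq
    refine Finset.prod_nonneg fun p _ => ?_
    change 0 ≤ if 2 ≤ h.factorization p then (p : ℝ) ^ (h.factorization p) else 1
    split_ifs <;> positivity
  set q1 : ℝ := hq h ^ (1 - κ) with hq1
  have hq10 : 0 ≤ q1 := Real.rpow_nonneg hq0 _
  set R : ℝ := C₂ * (h : ℝ) ^ (κ + ε / 4) * q1 with hRdef
  have hR0 : 0 ≤ R := by positivity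
  have hFB := Ph_FB h l hcop.symm (R := R) fun b m1 m2 => hR h b m1 m2
  have hZS := Ph_ZS h l hcop.symm
  have hV : 0 < (h : ℝ) * Y / l := by positivity
  have hV1 : 1 ≤ (h : ℝ) * Y / l := by
    rw [le_div_iff₀ hl0]
    nlinarith
  have hv := hvor h (Ph h l) (2 * h * R) hZS hFB k hk (h * Y / l) hV
  rw [SS_sub_MM k h l hl (by linarith), norm_mul, Complex.norm_real, Real.norm_of_nonneg
    (by positivity)]
  have hVk : ((h : ℝ) * Y / l) ^ ((k : ℝ) - η) ≤ ((h : ℝ) * Y / l) ^ k := by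
    rw [← Real.rpow_natCast]
    exact Real.rpow_le_rpow_of_exponent_le hV1 (by linarith)
  have hLV : ((l : ℝ) / h) ^ k * ((h : ℝ) * Y / l) ^ k = Y ^ k := by
    rw [← mul_pow]
    congr 1
    field_simp
  have hpow : (h : ℝ) ^ (3 * η) * (h.divisors.card : ℝ) ^ 2 * (2 * h * R) ≤
      2 * C₂ * C₃ ^ 2 * ((h : ℝ) ^ (1 + κ + ε) * q1) := by
    have h1 : (h.divisors.card : ℝ) ^ 2 ≤ C₃ ^ 2 * (h : ℝ) ^ (ε / 4) := by
      have h2 := hdiv h hh
      calc (h.divisors.card : ℝ) ^ 2 ≤ (C₃ * (h : ℝ) ^ (ε / 8)) ^ 2 :=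
            pow_le_pow_left₀ (Nat.cast_nonneg _) h2 2
        _ = C₃ ^ 2 * (h : ℝ) ^ (ε / 4) := by
            rw [mul_pow, ← Real.rpow_natCast ((h : ℝ) ^ (ε / 8)), ← Real.rpow_mul hh0.le]
            congr 2
            push_cast; ring
    have h3 : (h : ℝ) ^ (3 * η) ≤ (h : ℝ) ^ (ε / 4) :=
      Real.rpow_le_rpow_of_exponent_le hh1 hη2
    calc (h : ℝ) ^ (3 * η) * (h.divisors.card : ℝ) ^ 2 * (2 * h * R)
        ≤ (h : ℝ) ^ (ε / 4) * (C₃ ^ 2 * (h : ℝ) ^ (ε / 4)) * (2 * h * R) := by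
          refine mul_le_mul_of_nonneg_right ?_ (by positivity)
          exact mul_le_mul h3 h1 (by positivity) (by positivity)
      _ = 2 * C₂ * C₃ ^ 2 * (((h : ℝ) ^ (ε / 4) * (h : ℝ) ^ (ε / 4) * (h : ℝ) ^ (1 : ℝ) *
            (h : ℝ) ^ (κ + ε / 4)) * q1) := by
          rw [hRdef, Real.rpow_one]; ring
      _ ≤ 2 * C₂ * C₃ ^ 2 * ((h : ℝ) ^ (1 + κ + ε) * q1) := by
          refine mul_le_mul_of_nonneg_left ?_ (by positivity)
          refine mul_le_mul_of_nonneg_right ?_ hq10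
          rw [← Real.rpow_add hh0, ← Real.rpow_add hh0, ← Real.rpow_add hh0]
          exact Real.rpow_le_rpow_of_exponent_le hh1 (by linarith)
  calc ((l : ℝ) / h) ^ k * ‖∑' n : ℕ, FF h (Ph h l) n *
        (((n : ℝ) ^ k * Real.exp (-((n : ℝ) / (h * Y / l))) : ℝ) : ℂ)‖
      ≤ ((l : ℝ) / h) ^ k * (C₁ * (k : ℝ) ^ A * (k.factorial : ℝ) *
          ((h : ℝ) * Y / l) ^ ((k : ℝ) - η) * (h : ℝ) ^ (3 * η) *
            (h.divisors.card : ℝ) ^ 2 * (2 * h * R)) :=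
        mul_le_mul_of_nonneg_left hv (by positivity)
    _ = (((l : ℝ) / h) ^ k * ((h : ℝ) * Y / l) ^ ((k : ℝ) - η)) *
          (C₁ * (k : ℝ) ^ A * (k.factorial : ℝ)) *
          ((h : ℝ) ^ (3 * η) * (h.divisors.card : ℝ) ^ 2 * (2 * h * R)) := by ring
    _ ≤ (((l : ℝ) / h) ^ k * ((h : ℝ) * Y / l) ^ k) *
          (C₁ * (k : ℝ) ^ A * (k.factorial : ℝ)) *
          (2 * C₂ * C₃ ^ 2 * ((h : ℝ) ^ (1 + κ + ε) * q1)) := by
        refine mul_le_mul (mul_le_mul_of_nonneg_right (mul_le_mul_of_nonneg_left hVk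
          (by positivity)) (by positivity)) hpow (by positivity) (by positivity)
    _ = _ := by rw [hLV]; ring

end

end Pool.Agent.H493R2.SM
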